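import Mathlib

open Finset

namespace Pool.Agent.Results.MP_f96d9d_nt.Fails

def T (n : ℕ) (b c : ℤ) : ℤ :=
  ∑ j ∈ range (n / 2 + 1), (n.choose (2 * j) : ℤ) * ((2 * j).choose j : ℤ) * c ^ j * b ^ (n - 2 * j)

def Cg (p m : ℕ) (u v : ℚ) : Prop := (p : ℤ) ^ m ∣ (u - v).num

def W (p : ℕ) (b m : ℤ) : ℚ := ∑ k ∈ range p, (T k b 49 : ℚ) ^ 3 / (m : ℚ) ^ k

theorem result :
    (¬ ∀ p : ℕ, p.Prime → 3 < p →
      Cg p 2 (jacobiSym 2 p * W p 18 512) (W p 18 4096) ∧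
      (∀ x y : ℤ, p % 4 = 1 → (p : ℤ) = x ^ 2 + y ^ 2 → Odd x → Even y →
        Cg p 2 (W p 18 4096) (4 * x ^ 2 - 2 * p)) ∧
      (p % 4 = 3 → Cg p 2 (W p 18 4096) 0)) ∧
    (¬ ∀ p : ℕ, p.Prime → 3 < p →
      Cg p 2 (jacobiSym (-1) p * W p 10 (-512)) (jacobiSym 6 p * W p 10 1728) ∧
      (∀ x y : ℤ, (p % 8 = 1 ∨ p % 8 = 3) → (p : ℤ) = x ^ 2 + 2 * y ^ 2 →
        Cg p 2 (jacobiSym 6 p * W p 10 1728) (4 * x ^ 2 - 2 * p)) ∧
      ((p % 8 = 5 ∨ p % 8 = 7) → Cg p 2 (jacobiSym 6 p * W p 10 1728) 0)) := by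
  constructor
  · intro h
    have h1 := (h 7 (by norm_num) (by norm_num)).2.2 rfl
    revert h1
    unfold Cg W T
    decide +kernel
  · intro h
    have h1 := (h 7 (by norm_num) (by norm_num)).2.2 (by norm_num)
    have hj : jacobiSym 6 7 = -1 := by norm_num
    rw [hj] at h1
    revert h1
    unfold Cg W T
    decide +kernel

end Pool.Agent.Results.MP_f96d9d_nt.Fails
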